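import Pool.Agent.H304Z.NH.Spec

set_option autoImplicit false
set_option linter.unusedSectionVars false
set_option linter.unusedVariables false

/-!
Basic facts on traces, squared Hilbert-Schmidt norms and the order of matrices.
-/

namespace Pool.Agent.H304Z.NH

open Matrix Finset
open scoped MatrixOrder ComplexOrder

variable {n : Type} [Fintype n] [DecidableEq n]

theorem tr_add (x y : Mat n) : tr (x + y) = tr x + tr y := by
  simp [tr, trace_add]

theorem tr_sub (x y : Mat n) : tr (x - y) = tr x - tr y := by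
  simp [tr, trace_sub]

theorem tr_neg (x : Mat n) : tr (-x) = -tr x := by
  simp [tr, trace_neg]

theorem tr_zero : tr (0 : Mat n) = 0 := by
  simp [tr]

theorem tr_smul (r : ℝ) (x : Mat n) : tr (r • x) = r * tr x := by
  simp [tr, trace_smul]

theorem tr_sum {ι : Type} (s : Finset ι) (f : ι → Mat n) :
    tr (∑ i ∈ s, f i) = ∑ i ∈ s, tr (f i) := by
  simp [tr, trace_sum, Complex.re_sum]

theorem tr_comm (x y : Mat n) : tr (x * y) = tr (y * x) := by
  rw [tr, tr, trace_mul_comm]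

theorem tr_star (x : Mat n) : tr xᴴ = tr x := by
  simp [tr, trace_conjTranspose]

theorem tr_one : tr (1 : Mat n) = Fintype.card n := by
  simp [tr, trace_one]

theorem herm {a : Mat n} (ha : 0 ≤ a) : aᴴ = a :=
  (Matrix.nonneg_iff_posSemidef.mp ha).1

theorem tr_nonneg {a : Mat n} (ha : 0 ≤ a) : 0 ≤ tr a := by
  have h := (Matrix.nonneg_iff_posSemidef.mp ha).trace_nonneg
  exact (Complex.nonneg_iff.mp h).1

theorem tr_mono {a b : Mat n} (h : a ≤ b) : tr a ≤ tr b := by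
  have := tr_nonneg (sub_nonneg.mpr h)
  rw [tr_sub] at this
  linarith

theorem star_mul_nonneg (x : Mat n) : 0 ≤ xᴴ * x := star_mul_self_nonneg x

theorem mul_star_nonneg (x : Mat n) : 0 ≤ x * xᴴ := mul_star_self_nonneg x

theorem conj_le {a b : Mat n} (h : a ≤ b) (c : Mat n) : cᴴ * a * c ≤ cᴴ * b * c :=
  star_left_conjugate_le_conjugate h c

theorem conj_le' {a b : Mat n} (h : a ≤ b) (c : Mat n) : c * a * cᴴ ≤ c * b * cᴴ :=
  star_right_conjugate_le_conjugate h c

theorem conj_nonneg {a : Mat n} (h : 0 ≤ a) (c : Mat n) : 0 ≤ cᴴ * a * c :=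
  star_left_conjugate_nonneg h c

theorem conj_nonneg' {a : Mat n} (h : 0 ≤ a) (c : Mat n) : 0 ≤ c * a * cᴴ :=
  star_right_conjugate_nonneg h c

theorem rsmul_nonneg {r : ℝ} (hr : 0 ≤ r) {a : Mat n} (ha : 0 ≤ a) : 0 ≤ r • a :=
  Matrix.nonneg_iff_posSemidef.mpr ((Matrix.nonneg_iff_posSemidef.mp ha).smul hr)

theorem rsmul_le {r : ℝ} (hr : 0 ≤ r) {a b : Mat n} (h : a ≤ b) : r • a ≤ r • b := by
  rw [← sub_nonneg, ← smul_sub]
  exact rsmul_nonneg hr (sub_nonneg.mpr h)

theorem rsmul_le_of_le {r s : ℝ} (h : r ≤ s) {a : Mat n} (ha : 0 ≤ a) : r • a ≤ s • a := by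
  rw [← sub_nonneg, ← sub_smul]
  exact rsmul_nonneg (sub_nonneg.mpr h) ha

theorem rsmul_star (r : ℝ) (x : Mat n) : (r • x)ᴴ = r • xᴴ := by
  rw [conjTranspose_smul, star_trivial]

theorem one_nonneg' : (0 : Mat n) ≤ 1 := by
  simp

theorem tr_mul_nonneg {a b : Mat n} (ha : 0 ≤ a) (hb : 0 ≤ b) : 0 ≤ tr (a * b) := by
  obtain ⟨c, rfl⟩ := CStarAlgebra.nonneg_iff_eq_star_mul_self.mp ha
  have h := tr_nonneg (conj_nonneg' hb c)
  rw [tr_comm (c * b), ← Matrix.mul_assoc] at h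
  exact h

theorem tr_mul_le {a b c : Mat n} (ha : 0 ≤ a) (h : b ≤ c) : tr (a * b) ≤ tr (a * c) := by
  have := tr_mul_nonneg ha (sub_nonneg.mpr h)
  rw [Matrix.mul_sub, tr_sub] at this
  linarith

theorem tr_mul_le' {a b c : Mat n} (ha : 0 ≤ a) (h : b ≤ c) : tr (b * a) ≤ tr (c * a) := by
  rw [tr_comm b, tr_comm c]
  exact tr_mul_le ha h

theorem nsq_nonneg (x : Mat n) : 0 ≤ nsq x := tr_nonneg (star_mul_nonneg x)

theorem nsq_eq (x : Mat n) : nsq x = tr (xᴴ * x) := rfl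

theorem nsq_eq' (x : Mat n) : nsq x = tr (x * xᴴ) := tr_comm _ _

theorem nsq_star (x : Mat n) : nsq xᴴ = nsq x := by
  rw [nsq_eq, conjTranspose_conjTranspose, nsq_eq']

theorem nsq_zero : nsq (0 : Mat n) = 0 := by
  simp [nsq, tr_zero]

theorem nsq_neg (x : Mat n) : nsq (-x) = nsq x := by
  simp [nsq]

theorem nsq_sub_comm (x y : Mat n) : nsq (x - y) = nsq (y - x) := by
  rw [← nsq_neg, neg_sub]

theorem nsq_smul (r : ℝ) (x : Mat n) : nsq (r • x) = r ^ 2 * nsq x := by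
  rw [nsq_eq, rsmul_star, Matrix.smul_mul, Matrix.mul_smul, tr_smul, tr_smul, nsq_eq]
  ring

theorem tr_star_mul_comm (x y : Mat n) : tr (yᴴ * x) = tr (xᴴ * y) := by
  rw [← tr_star, conjTranspose_mul, conjTranspose_conjTranspose]

theorem nsq_add (x y : Mat n) : nsq (x + y) = nsq x + nsq y + 2 * tr (xᴴ * y) := by
  rw [nsq_eq, conjTranspose_add, Matrix.add_mul, Matrix.mul_add, Matrix.mul_add, tr_add, tr_add,
    tr_add, tr_star_mul_comm x y, nsq_eq, nsq_eq]
  ring

theorem nsq_sub (x y : Mat n) : nsq (x - y) = nsq x + nsq y - 2 * tr (xᴴ * y) := by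
  rw [sub_eq_add_neg, nsq_add, nsq_neg, Matrix.mul_neg, tr_neg]
  ring

theorem two_tr_le (t : ℝ) (ht : 0 < t) (x y : Mat n) :
    2 * tr (xᴴ * y) ≤ t * nsq x + nsq y / t := by
  have h := nsq_nonneg (t • x - y)
  rw [nsq_sub, nsq_smul, rsmul_star, Matrix.smul_mul, tr_smul] at h
  have h2 : t * nsq x + nsq y / t - 2 * tr (xᴴ * y) =
      (t ^ 2 * nsq x + nsq y - 2 * (t * tr (xᴴ * y))) / t := by
    field_simp
  have h3 := div_nonneg h ht.le
  linarith

theorem nsq_add_le_t (t : ℝ) (ht : 0 < t) (x y : Mat n) :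
    nsq (x + y) ≤ (1 + t) * nsq x + (1 + 1 / t) * nsq y := by
  rw [nsq_add]
  have := two_tr_le t ht x y
  have e : (1 + 1 / t) * nsq y = nsq y + nsq y / t := by ring
  rw [e]
  linarith

theorem nsq_add_le (x y : Mat n) : nsq (x + y) ≤ 2 * nsq x + 2 * nsq y := by
  have := nsq_add_le_t 1 one_pos x y
  norm_num at this
  exact this

theorem nsq_sub_le (x y : Mat n) : nsq (x - y) ≤ 2 * nsq x + 2 * nsq y := by
  rw [sub_eq_add_neg, ← nsq_neg y]
  exact nsq_add_le _ _

theorem nsq_add3_le (x y z : Mat n) : nsq (x + y + z) ≤ 3 * nsq x + 3 * nsq y + 3 * nsq z := by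
  have h1 := nsq_add_le_t (1 / 2) (by norm_num) (x + y) z
  have h2 := nsq_add_le x y
  norm_num at h1
  linarith

/-- Cauchy-Schwarz in the form with a bound for both factors -/
theorem tr_le_of_nsq {x y : Mat n} {A B : ℝ} (hA : 0 ≤ A) (hB : 0 ≤ B) (hx : nsq x ≤ A ^ 2)
    (hy : nsq y ≤ B ^ 2) : tr (xᴴ * y) ≤ A * B := by
  refine le_of_forall_pos_le_add fun e he => ?_
  have hp : 0 < A + B + e := by positivity
  set d : ℝ := min 1 (e / (A + B + 1)) with hd
  have hd0 : 0 < d := lt_min one_pos (by positivity)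
  have hd1 : d ≤ 1 := min_le_left _ _
  have hd2 : d * (A + B + 1) ≤ e := by
    have := min_le_right 1 (e / (A + B + 1))
    rw [← hd, le_div_iff₀ (by positivity)] at this
    exact this
  have h := two_tr_le ((B + d) / (A + d)) (by positivity) x y
  have h1 : (B + d) / (A + d) * nsq x ≤ (B + d) * (A + d) := by
    rw [div_mul_eq_mul_div, div_le_iff₀ (by positivity)]
    have : nsq x ≤ (A + d) * (A + d) := by nlinarith
    have h3 : (B + d) * nsq x ≤ (B + d) * ((A + d) * (A + d)) :=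
      mul_le_mul_of_nonneg_left this (by positivity)
    linarith
  have h2 : nsq y / ((B + d) / (A + d)) ≤ (B + d) * (A + d) := by
    rw [div_le_iff₀ (by positivity)]
    have e1 : (B + d) * (A + d) * ((B + d) / (A + d)) = (B + d) * (B + d) := by
      field_simp
    rw [e1]
    nlinarith
  nlinarith

theorem nsq_eq_zero {x : Mat n} (h : nsq x = 0) : x = 0 := by
  have h1 := (Matrix.nonneg_iff_posSemidef.mp (star_mul_nonneg x)).trace_nonneg
  have h2 : trace (xᴴ * x) = 0 := Complex.ext h (Complex.nonneg_iff.mp h1).2.symm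
  exact trace_conjTranspose_mul_self_eq_zero_iff.mp h2

theorem nsq_mul (x y : Mat n) : nsq (x * y) = tr (xᴴ * x * (y * yᴴ)) := by
  rw [nsq_eq, conjTranspose_mul, Matrix.mul_assoc yᴴ, tr_comm yᴴ]
  simp only [Matrix.mul_assoc]

theorem nsq_mul_le_left {a : Mat n} (ha : aᴴ * a ≤ 1) (x : Mat n) : nsq (a * x) ≤ nsq x := by
  rw [nsq_mul]
  have := tr_mul_le' (mul_star_nonneg x) ha
  rw [Matrix.one_mul, ← nsq_eq'] at this
  exact this

theorem nsq_mul_le_right {a : Mat n} (ha : a * aᴴ ≤ 1) (x : Mat n) : nsq (x * a) ≤ nsq x := by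
  rw [nsq_mul]
  have := tr_mul_le (star_mul_nonneg x) ha
  rw [Matrix.mul_one, ← nsq_eq] at this
  exact this

theorem IsU.star {u : Mat n} (hu : IsU u) : IsU uᴴ :=
  ⟨by rw [conjTranspose_conjTranspose]; exact hu.2, by rw [conjTranspose_conjTranspose]; exact hu.1⟩

theorem IsU.mul {u v : Mat n} (hu : IsU u) (hv : IsU v) : IsU (u * v) := by
  constructor
  · rw [conjTranspose_mul, Matrix.mul_assoc, ← Matrix.mul_assoc uᴴ, hu.1, Matrix.one_mul, hv.1]
  · rw [conjTranspose_mul, Matrix.mul_assoc, ← Matrix.mul_assoc v, hv.2, Matrix.one_mul, hu.2]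

theorem nsq_U_mul {u : Mat n} (hu : IsU u) (x : Mat n) : nsq (u * x) = nsq x := by
  rw [nsq_mul, hu.1, Matrix.one_mul, nsq_eq']

theorem nsq_mul_U {u : Mat n} (hu : IsU u) (x : Mat n) : nsq (x * u) = nsq x := by
  rw [nsq_mul, hu.2, Matrix.mul_one, nsq_eq]

theorem nsq_mono {a b : Mat n} (ha : 0 ≤ a) (h : a ≤ b) : nsq a ≤ nsq b := by
  have hb : 0 ≤ b := ha.trans h
  rw [nsq_eq, nsq_eq, herm ha, herm hb]
  exact (tr_mul_le ha h).trans (tr_mul_le' hb h)

theorem nsq_le_tr {a : Mat n} {L : ℝ} (ha : 0 ≤ a) (h : a ≤ L • (1 : Mat n)) :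
    nsq a ≤ L * tr a := by
  rw [nsq_eq, herm ha]
  have := tr_mul_le ha h
  rw [Matrix.mul_smul, Matrix.mul_one, tr_smul] at this
  exact this

theorem le_one_of_sq_le {a : Mat n} (ha : aᴴ = a) (h : a * a ≤ a) : a ≤ 1 := by
  have h1 := star_mul_nonneg (1 - a)
  rw [conjTranspose_sub, conjTranspose_one, ha] at h1
  have h2 := add_nonneg h1 (sub_nonneg.mpr h)
  have e : (1 - a) * (1 - a) + (a - a * a) = 1 - a := by noncomm_ring
  rw [e] at h2
  exact sub_nonneg.mp h2

theorem star_mul_le_one {z : Mat n} (h : z * zᴴ ≤ 1) : zᴴ * z ≤ 1 := by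
  apply le_one_of_sq_le
  · rw [conjTranspose_mul, conjTranspose_conjTranspose]
  · have := conj_le h z
    rw [Matrix.mul_one] at this
    simpa only [Matrix.mul_assoc] using this

theorem mul_star_le_one {z : Mat n} (h : zᴴ * z ≤ 1) : z * zᴴ ≤ 1 := by
  have h1 : zᴴ * zᴴᴴ ≤ 1 := by rw [conjTranspose_conjTranspose]; exact h
  have := star_mul_le_one h1
  rwa [conjTranspose_conjTranspose] at this

theorem sq_le_self {a : Mat n} (ha : 0 ≤ a) (h : a ≤ 1) : a * a ≤ a := by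
  obtain ⟨c, rfl⟩ := CStarAlgebra.nonneg_iff_eq_star_mul_self.mp ha
  have h1 : c * cᴴ ≤ 1 := mul_star_le_one h
  have := conj_le h1 c
  rw [Matrix.mul_one] at this
  simpa only [Matrix.mul_assoc, star_eq_conjTranspose] using this

theorem IsProj.nonneg {p : Mat n} (hp : IsProj p) : 0 ≤ p := by
  have := star_mul_nonneg p
  rwa [hp.1, hp.2] at this

theorem IsProj.compl {p : Mat n} (hp : IsProj p) : IsProj (1 - p) := by
  constructor
  · rw [conjTranspose_sub, conjTranspose_one, hp.1]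
  · have e : (1 - p) * (1 - p) = 1 - p - p + p * p := by noncomm_ring
    rw [e, hp.2]
    abel

theorem IsProj.le_one {p : Mat n} (hp : IsProj p) : p ≤ 1 := sub_nonneg.mp hp.compl.nonneg

theorem IsProj.nsq_eq {p : Mat n} (hp : IsProj p) : nsq p = tr p := by
  rw [nsq, hp.1, hp.2]

theorem IsProj.tr_nonneg {p : Mat n} (hp : IsProj p) : 0 ≤ tr p := NH.tr_nonneg hp.nonneg

theorem IsProj.star_mul_le {p : Mat n} (hp : IsProj p) : pᴴ * p ≤ 1 := by
  rw [hp.1, hp.2]; exact hp.le_one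

theorem IsProj.mul_star_le {p : Mat n} (hp : IsProj p) : p * pᴴ ≤ 1 := by
  rw [hp.1, hp.2]; exact hp.le_one

theorem isProj_zero : IsProj (0 : Mat n) := ⟨by simp, by simp⟩

theorem isProj_one : IsProj (1 : Mat n) := ⟨by simp, by simp⟩

theorem IsProj.nsq_mul {p : Mat n} (hp : IsProj p) (x : Mat n) :
    nsq (x * p) = tr (xᴴ * x * p) := by
  rw [NH.nsq_mul, hp.1, hp.2]

theorem IsProj.nsq_mul' {p : Mat n} (hp : IsProj p) (x : Mat n) :
    nsq (p * x) = tr (x * xᴴ * p) := by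
  rw [NH.nsq_mul, hp.1, hp.2, tr_comm]

theorem IsProj.tr_nat {p : Mat n} (hp : IsProj p) : ∃ k : ℕ, tr p = k := by
  have h1 : IsIdempotentElem (Matrix.toLin' p) := by
    show Matrix.toLin' p * Matrix.toLin' p = Matrix.toLin' p
    rw [Module.End.mul_eq_comp, ← Matrix.toLin'_mul, hp.2]
  have h2 := (LinearMap.IsIdempotentElem.isProj_range _ h1).trace
  rw [Matrix.trace_toLin'_eq] at h2
  refine ⟨Module.finrank ℂ (LinearMap.range (Matrix.toLin' p)), ?_⟩
  rw [tr, h2]
  simp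

theorem en_nonneg {G : Type} (u : G → Mat n) (S : Finset G) (y : Mat n) : 0 ≤ en u S y :=
  sum_nonneg fun _ _ => nsq_nonneg _

theorem cm_one (u : Mat n) : cm u 1 = 0 := by simp [cm]

theorem cm_mul (u x y : Mat n) : cm u (x * y) = cm u x * y + x * cm u y := by
  simp only [cm]; noncomm_ring

theorem cm_sub (u x y : Mat n) : cm u (x - y) = cm u x - cm u y := by
  simp only [cm]; noncomm_ring

theorem cm_add (u x y : Mat n) : cm u (x + y) = cm u x + cm u y := by
  simp only [cm]; noncomm_ring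

theorem cm_smul (u x : Mat n) (r : ℝ) : cm u (r • x) = r • cm u x := by
  simp only [cm, Matrix.mul_smul, Matrix.smul_mul, smul_sub]

theorem nsq_cm_le {u : Mat n} (hu : IsU u) (x : Mat n) : nsq (cm u x) ≤ 4 * nsq x := by
  have := nsq_sub_le (u * x) (x * u)
  rw [nsq_U_mul hu, nsq_mul_U hu] at this
  rw [cm]
  linarith

theorem nsq_cm_star {u : Mat n} (hu : IsU u) (x : Mat n) : nsq (cm uᴴ x) = nsq (cm u x) := by
  have e : u * cm uᴴ x * u = -cm u x := by
    have e1 : u * cm uᴴ x * u = (u * uᴴ) * x * u - u * x * (uᴴ * u) := by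
      simp only [cm]; noncomm_ring
    rw [e1, hu.1, hu.2]
    simp only [cm]; noncomm_ring
  rw [← nsq_U_mul hu (cm uᴴ x), ← nsq_mul_U hu (u * cm uᴴ x), e, nsq_neg]

end Pool.Agent.H304Z.NH
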