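import Mathlib

set_option autoImplicit false

/-!
Hyperlinear and sofic groups, exactly as in the problem file.
-/

namespace Pool.Agent.H304Z.NHDefs

open Matrix

/-- the normalised Hilbert-Schmidt norm `(tr (X* X) / n) ^ (1 / 2)` -/
noncomputable def hsNorm {n : ℕ} (X : Matrix (Fin n) (Fin n) ℂ) : ℝ :=
  Real.sqrt ((1 / (n : ℝ)) * (trace (Xᴴ * X)).re)

/-- the normalised Hamming distance of two permutations -/
noncomputable def hamming {n : ℕ} (σ τ : Equiv.Perm (Fin n)) : ℝ :=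
  (1 / (n : ℝ)) * ((Finset.univ.filter fun i => σ i ≠ τ i).card : ℝ)

/-- hyperlinear groups -/
def Hyperlinear (G : Type) [Group G] : Prop :=
  ∀ (A : Finset G) (h1 : (1 : G) ∈ A) (ε : ℝ), 0 < ε →
    ∃ n : ℕ, 1 ≤ n ∧ ∃ φ : A → Matrix.unitaryGroup (Fin n) ℂ,
      φ ⟨1, h1⟩ = 1 ∧
      (∀ (a b : A) (hab : a.1 * b.1 ∈ A),
        hsNorm ((φ ⟨a.1 * b.1, hab⟩).1 - (φ a).1 * (φ b).1) < ε) ∧
      ∀ a : A, a.1 ≠ 1 → 1 ≤ hsNorm ((φ a).1 - 1)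

/-- sofic groups -/
def Sofic (G : Type) [Group G] : Prop :=
  ∀ (A : Finset G) (h1 : (1 : G) ∈ A) (ε : ℝ), 0 < ε →
    ∃ n : ℕ, 1 ≤ n ∧ ∃ φ : A → Equiv.Perm (Fin n),
      φ ⟨1, h1⟩ = 1 ∧
      (∀ (a b : A) (hab : a.1 * b.1 ∈ A), hamming (φ ⟨a.1 * b.1, hab⟩) (φ a * φ b) < ε) ∧
      ∀ a : A, a.1 ≠ 1 → 1 - ε ≤ hamming (φ a) 1

end Pool.Agent.H304Z.NHDefs
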