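import Pool.Agent.H304Z.NH.Basic

set_option autoImplicit false
set_option linter.unusedSectionVars false
set_option linter.unusedVariables false

/-!
Part one: the greedy sequence and auxiliary estimates.
-/

namespace Pool.Agent.H304Z.NH

open Matrix Finset
open scoped MatrixOrder ComplexOrder

variable {n : Type} [Fintype n] [DecidableEq n]

theorem nsq_sum_le {ι : Type} (s : Finset ι) (x : ι → Mat n) :
    nsq (∑ i ∈ s, x i) ≤ s.card * ∑ i ∈ s, nsq (x i) := by
  have e : nsq (∑ i ∈ s, x i) = ∑ i ∈ s, ∑ j ∈ s, tr ((x i)ᴴ * x j) := by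
    rw [nsq_eq, conjTranspose_sum, Finset.sum_mul, tr_sum]
    refine sum_congr rfl fun i _ => ?_
    rw [Finset.mul_sum, tr_sum]
  have h : ∑ i ∈ s, ∑ j ∈ s, tr ((x i)ᴴ * x j) ≤
      ∑ i ∈ s, ∑ j ∈ s, (nsq (x i) / 2 + nsq (x j) / 2) := by
    refine sum_le_sum fun i _ => sum_le_sum fun j _ => ?_
    have := two_tr_le 1 one_pos (x i) (x j)
    linarith
  rw [e]
  refine h.trans (le_of_eq ?_)
  simp only [sum_add_distrib, sum_const, nsmul_eq_mul, ← Finset.mul_sum, ← Finset.sum_div]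
  ring

theorem nsq_av_le {G I : Type} [Fintype I] [Nonempty I] (u : G → Mat n) (hu : ∀ g, IsU (u g))
    (γ : I → G) (y : Mat n) : nsq (av u γ y) ≤ nsq y := by
  have hc : (0 : ℝ) < Fintype.card I := by exact_mod_cast Fintype.card_pos
  rw [av, nsq_smul]
  have h := nsq_sum_le univ (fun i => u (γ i) * y * (u (γ i))ᴴ)
  have e : ∀ i, nsq (u (γ i) * y * (u (γ i))ᴴ) = nsq y := fun i => by
    rw [nsq_mul_U (hu _).star, nsq_U_mul (hu _)]
  simp only [e, sum_const, card_univ, nsmul_eq_mul] at h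
  calc (Fintype.card I : ℝ)⁻¹ ^ 2 * nsq (∑ i, u (γ i) * y * (u (γ i))ᴴ) ≤
      (Fintype.card I : ℝ)⁻¹ ^ 2 * (Fintype.card I * (Fintype.card I * nsq y)) :=
        mul_le_mul_of_nonneg_left h (by positivity)
    _ = nsq y := by field_simp

theorem av_sum {G I ι : Type} [Fintype I] (u : G → Mat n) (γ : I → G) (s : Finset ι)
    (y : ι → Mat n) : av u γ (∑ j ∈ s, y j) = ∑ j ∈ s, av u γ (y j) := by
  simp only [av, Finset.mul_sum, Finset.sum_mul, ← Finset.smul_sum]
  rw [sum_comm]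

theorem av_nonneg {G I : Type} [Fintype I] (u : G → Mat n) (γ : I → G) {y : Mat n}
    (hy : 0 ≤ y) : 0 ≤ av u γ y :=
  rsmul_nonneg (by positivity) (sum_nonneg fun i _ => conj_nonneg' hy _)

theorem nsq_sum_proj (q : ℕ → Mat n) (N : ℕ) (hq : ∀ j < N, IsProj (q j)) :
    nsq (∑ i ∈ range N, q i) =
      tr (∑ i ∈ range N, q i) + 2 * ∑ j ∈ range N, tr (q j * ∑ i ∈ range j, q i) := by
  induction N with
  | zero => simp [nsq_zero, tr_zero]
  | succ N ih =>
    have h1 := ih fun j hj => hq j (Nat.lt_succ_of_lt hj)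
    have h2 := hq N (Nat.lt_succ_self N)
    rw [sum_range_succ, sum_range_succ, add_comm (∑ i ∈ range N, q i), nsq_add, h1, h2.nsq_eq,
      h2.1, tr_add]
    ring

/-- the class of candidates -/
def Cand {G : Type} (u : G → Mat n) (S : Finset G) (γ σ : ℝ) (Q q : Mat n) : Prop :=
  IsProj q ∧ 0 < tr q ∧ en u S q ≤ γ * tr q ∧ tr (q * Q) ≤ σ * tr q

theorem exists_min [Nonempty n] {G : Type} (u : G → Mat n) (S : Finset G) {γ σ : ℝ} (hγ : 0 ≤ γ)
    (Q : Mat n) (hQ : tr Q ≤ σ * Fintype.card n) :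
    ∃ q, Cand u S γ σ Q q ∧ 1 ≤ tr q ∧ ∀ q', Cand u S γ σ Q q' → tr q ≤ tr q' := by
  classical
  have hc : (0 : ℝ) < Fintype.card n := by exact_mod_cast Fintype.card_pos
  have h1 : Cand u S γ σ Q 1 := by
    refine ⟨isProj_one, by rw [tr_one]; exact hc, ?_, ?_⟩
    · rw [en]
      simp only [cm_one, nsq_zero, sum_const_zero]
      rw [tr_one]
      positivity
    · rw [Matrix.one_mul, tr_one]
      exact hQ
  have hex : ∃ k : ℕ, ∃ q, Cand u S γ σ Q q ∧ tr q = k := ⟨_, 1, h1, tr_one⟩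
  obtain ⟨q, hq, hk⟩ := Nat.find_spec hex
  refine ⟨q, hq, ?_, fun q' hq' => ?_⟩
  · have h2 := hq.2.1
    rw [hk] at h2 ⊢
    have : 0 < Nat.find hex := by exact_mod_cast h2
    exact_mod_cast this
  · obtain ⟨k', hk'⟩ := hq'.1.tr_nat
    rw [hk, hk']
    exact_mod_cast Nat.find_min' hex ⟨q', hq', hk'⟩

theorem greedy [Nonempty n] {G : Type} (u : G → Mat n) (S : Finset G) {γ σ : ℝ} (hγ : 0 ≤ γ) :
    ∃ (N : ℕ) (q : ℕ → Mat n),
      (∀ j < N, Cand u S γ σ (∑ i ∈ range j, q i) (q j) ∧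
        ∀ q', Cand u S γ σ (∑ i ∈ range j, q i) q' → tr (q j) ≤ tr q') ∧
      σ * Fintype.card n < tr (∑ i ∈ range N, q i) := by
  classical
  have hex : ∀ Q : Mat n, ∃ q, tr Q ≤ σ * Fintype.card n →
      Cand u S γ σ Q q ∧ 1 ≤ tr q ∧ ∀ q', Cand u S γ σ Q q' → tr q ≤ tr q' := by
    intro Q
    by_cases h : tr Q ≤ σ * Fintype.card n
    · obtain ⟨q, hq⟩ := exists_min u S hγ Q h
      exact ⟨q, fun _ => hq⟩
    · exact ⟨0, fun h' => absurd h' h⟩
  choose nxt hnxt using hex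
  let Qs : ℕ → Mat n := fun j => Nat.rec 0 (fun _ Q => Q + nxt Q) j
  have hs : ∀ j, Qs (j + 1) = Qs j + nxt (Qs j) := fun j => rfl
  have hsum : ∀ j, Qs j = ∑ i ∈ range j, nxt (Qs i) := by
    intro j
    induction j with
    | zero => rfl
    | succ j ih => rw [hs, sum_range_succ, ← ih]
  have hstop : ∃ j, σ * Fintype.card n < tr (Qs j) := by
    by_contra hcon
    push Not at hcon
    have hge : ∀ j : ℕ, (j : ℝ) ≤ tr (Qs j) := by
      intro j
      induction j with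
      | zero =>
        show ((0 : ℕ) : ℝ) ≤ tr (0 : Mat n)
        rw [tr_zero]
        simp
      | succ j ih =>
        rw [hs, tr_add]
        have := (hnxt _ (hcon j)).2.1
        push_cast
        linarith
    obtain ⟨j, hj⟩ := exists_nat_gt (σ * Fintype.card n)
    have := hge j
    have := hcon j
    linarith
  refine ⟨Nat.find hstop, fun j => nxt (Qs j), fun j hj => ?_, ?_⟩
  · have h1 := Nat.find_min hstop hj
    push Not at h1
    rw [← hsum]
    exact ⟨(hnxt _ h1).1, (hnxt _ h1).2.2⟩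
  · rw [← hsum]
    exact Nat.find_spec hstop

theorem tr_proj_le {p q : Mat n} (hp : IsProj p) (hq : IsProj q) :
    tr q ≤ tr p + nsq (p - q) := by
  rw [nsq_sub, hp.nsq_eq, hq.nsq_eq, hp.1]
  have := tr_mul_le hp.nonneg hq.le_one
  rw [Matrix.mul_one] at this
  linarith

theorem sub_proj_le {U V : Mat n} (hU : IsProj U) (hV : IsProj V) (h : V * U = V) : V ≤ U := by
  have h' : U * V = V := by
    have := congrArg conjTranspose h
    rwa [conjTranspose_mul, hU.1, hV.1] at this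
  have hp : IsProj (U - V) := by
    constructor
    · rw [conjTranspose_sub, hU.1, hV.1]
    · have e : (U - V) * (U - V) = U * U - U * V - V * U + V * V := by noncomm_ring
      rw [e, hU.2, hV.2, h, h']
      abel
  exact sub_nonneg.mp hp.nonneg

/-- the contradiction with minimality -/
theorem tilt_step {G : Type} (u : G → Mat n) (hu : ∀ g, IsU (u g)) (S : Finset G)
    {γ γ₁ σ Λ T : ℝ} (hγ₁ : 0 < γ₁) (hσ : 0 < σ)
    (htilt : ∀ V z : Mat n, IsProj V → z * V = z → z * zᴴ ≤ 1 → 49 / 50 * tr V ≤ nsq z →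
      en u S z ≤ γ₁ * tr V →
      ∃ q : Mat n, IsProj q ∧ (4 / 5 : ℝ) • q ≤ z * zᴴ ∧ tr V / 20 ≤ tr q ∧ en u S q ≤ γ * tr q)
    (j : ℕ) (q Us : ℕ → Mat n) (hq : ∀ i < j, IsProj (q i)) (hUs : ∀ i, IsProj (Us i))
    (R U Nn : Mat n) (hU : IsProj U) (hR0 : 0 ≤ R) (hR1 : R ≤ 1) (hΛ : 0 ≤ Λ)
    (hR2 : 1 - R * R ≤ (2 * Λ) • ∑ i ∈ range j, Us i)
    (hNn : ∑ i ∈ range j, (q i - Us i)ᴴ * (q i - Us i) ≤ Nn)
    (hT0 : 0 < T) (hTU : 99 / 100 * T ≤ tr U) (hUT : tr U ≤ 101 / 100 * T)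
    (h2 : 2 * Λ * tr (U * ∑ i ∈ range j, Us i) ≤ T / 100000)
    (h3 : tr (U * (R * (∑ i ∈ range j, Us i) * R)) ≤ σ * T / 1000000)
    (h4 : ∑ s ∈ S, nsq (cm (u s) R * U) ≤ γ₁ * T / 5000)
    (h5 : tr (R * U * R * Nn) ≤ σ * T / 1000000)
    (hmin : ∀ q', Cand u S γ σ (∑ i ∈ range j, q i) q' → T ≤ tr q') :
    Irr u S (γ₁ / 4000) U := by
  intro V hV hVU hV2 hVe
  by_contra hcon
  push Not at hcon
  set P := ∑ i ∈ range j, Us i with hP
  have hP0 : 0 ≤ P := sum_nonneg fun i _ => (hUs i).nonneg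
  have hVle : V ≤ U := sub_proj_le hU hV hVU
  have hUV : U * V = V := by
    have := congrArg conjTranspose hVU
    rwa [conjTranspose_mul, hU.1, hV.1] at this
  have hRh : Rᴴ = R := herm hR0
  have hRR : R * R ≤ 1 := (sq_le_self hR0 hR1).trans hR1
  have hzz : (R * V) * (R * V)ᴴ = R * V * Rᴴ := by
    rw [conjTranspose_mul, hV.1, Matrix.mul_assoc, ← Matrix.mul_assoc V, hV.2, Matrix.mul_assoc]
  have hz1 : (R * V) * (R * V)ᴴ ≤ 1 := by
    rw [hzz]
    have := conj_le' hV.le_one R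
    rw [Matrix.mul_one, hRh] at this
    rw [hRh]
    exact this.trans hRR
  have hnz : nsq (R * V) = tr (V * (R * R)) := by
    rw [hV.nsq_mul, hRh, tr_comm]
  have hz2 : 49 / 50 * tr V ≤ nsq (R * V) := by
    have a1 := tr_mul_le hV.nonneg hR2
    rw [Matrix.mul_sub, Matrix.mul_one, tr_sub, Matrix.mul_smul, tr_smul] at a1
    have a2 := tr_mul_le' hP0 hVle
    have a3 := mul_le_mul_of_nonneg_left a2 (by linarith : 0 ≤ 2 * Λ)
    rw [hnz]
    linarith
  have hz3 : en u S (R * V) ≤ γ₁ * tr V := by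
    have a1 : ∀ s ∈ S, nsq (cm (u s) (R * V)) ≤
        2 * nsq (cm (u s) R * U) + 2 * nsq (cm (u s) V) := by
      intro s _
      rw [cm_mul]
      have b1 := nsq_add_le (cm (u s) R * V) (R * cm (u s) V)
      have b2 : nsq (cm (u s) R * V) ≤ nsq (cm (u s) R * U) := by
        have := nsq_mul_le_right hV.mul_star_le (cm (u s) R * U)
        rwa [Matrix.mul_assoc, hUV] at this
      have b3 : nsq (R * cm (u s) V) ≤ nsq (cm (u s) V) :=
        nsq_mul_le_left (by rw [hRh]; exact hRR) _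
      linarith
    have a2 := sum_le_sum a1
    rw [sum_add_distrib, ← Finset.mul_sum, ← Finset.mul_sum] at a2
    have a3 : ∑ s ∈ S, nsq (cm (u s) V) ≤ γ₁ / 4000 * tr U := hVe
    have a4 : γ₁ * (tr U / 1000) ≤ γ₁ * tr V := mul_le_mul_of_nonneg_left hcon.le hγ₁.le
    have a5 : γ₁ * (99 / 100 * T) ≤ γ₁ * tr U := mul_le_mul_of_nonneg_left hTU hγ₁.le
    have a6 : 0 < γ₁ * T := mul_pos hγ₁ hT0
    show ∑ s ∈ S, nsq (cm (u s) (R * V)) ≤ _
    linarith
  obtain ⟨q', hq', hle, hlow, hen⟩ := htilt V (R * V) hV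
    (by rw [Matrix.mul_assoc, hV.2]) hz1 hz2 hz3
  have hQ0 : 0 ≤ ∑ i ∈ range j, q i :=
    sum_nonneg fun i hi => (hq i (mem_range.mp hi)).nonneg
  have hup : 4 / 5 * tr q' ≤ tr V := by
    have a1 := tr_mono hle
    rw [tr_smul, ← nsq_eq', hnz] at a1
    have a2 := tr_mul_le hV.nonneg hRR
    rw [Matrix.mul_one] at a2
    linarith
  have hov : 4 / 5 * tr (q' * ∑ i ∈ range j, q i) ≤
      2 * tr (U * (R * P * R)) + 2 * tr (R * U * R * Nn) := by
    have a1 := tr_mul_le' hQ0 hle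
    rw [Matrix.smul_mul, tr_smul] at a1
    have a2 : tr (R * V * (R * V)ᴴ * ∑ i ∈ range j, q i) =
        ∑ i ∈ range j, nsq (q i * (R * V)) := by
      rw [Finset.mul_sum, tr_sum]
      refine sum_congr rfl fun i hi => ?_
      rw [(hq i (mem_range.mp hi)).nsq_mul']
    have a3 : ∀ i ∈ range j, nsq (q i * (R * V)) ≤
        2 * tr (R * V * (R * V)ᴴ * Us i) +
        2 * tr (R * V * (R * V)ᴴ * ((q i - Us i)ᴴ * (q i - Us i))) := by
      intro i _
      have b1 := nsq_add_le (Us i * (R * V)) ((q i - Us i) * (R * V))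
      have e : Us i * (R * V) + (q i - Us i) * (R * V) = q i * (R * V) := by noncomm_ring
      rw [e, (hUs i).nsq_mul', nsq_mul (q i - Us i), tr_comm ((q i - Us i)ᴴ * (q i - Us i))] at b1
      exact b1
    have a4 := sum_le_sum a3
    rw [sum_add_distrib, ← Finset.mul_sum, ← Finset.mul_sum, ← tr_sum, ← tr_sum,
      ← Finset.mul_sum, ← Finset.mul_sum, ← hP] at a4
    have hzU : R * V * (R * V)ᴴ ≤ R * U * R := by
      rw [hzz]
      have := conj_le' hVle R
      rw [hRh] at this ⊢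
      exact this
    have hN0 : 0 ≤ ∑ i ∈ range j, (q i - Us i)ᴴ * (q i - Us i) :=
      sum_nonneg fun i _ => star_mul_nonneg _
    have a5 := tr_mul_le' hP0 hzU
    have a6 : tr (R * U * R * P) = tr (U * (R * P * R)) := by
      rw [Matrix.mul_assoc R U, Matrix.mul_assoc R, tr_comm R]
      simp only [Matrix.mul_assoc]
    have a7 := tr_mul_le (mul_star_nonneg (R * V)) hNn
    have a8 := tr_mul_le' (hN0.trans hNn) hzU
    linarith
  have hc : Cand u S γ σ (∑ i ∈ range j, q i) q' := by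
    refine ⟨hq', by linarith, hen, ?_⟩
    have a1 : σ * (T / 25000) ≤ σ * tr q' := mul_le_mul_of_nonneg_left (by linarith) hσ.le
    have a2 : 0 < σ * T := mul_pos hσ hT0
    linarith
  have := hmin q' hc
  linarith

end Pool.Agent.H304Z.NH
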