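import Pool.Agent.H304Z.NH.P1a

set_option autoImplicit false
set_option linter.unusedSectionVars false
set_option linter.unusedVariables false

/-!
Part one: existence of an irreducible corner.
-/

namespace Pool.Agent.H304Z.NH

open Matrix Finset
open scoped MatrixOrder ComplexOrder

variable {n : Type} [Fintype n] [DecidableEq n]

theorem tr_le_of_nsq' {x y : Mat n} {A B M : ℝ} (hA : 0 ≤ A) (hB : 0 ≤ B) (hM : 0 ≤ M)
    (hx : nsq x ≤ A ^ 2 * M) (hy : nsq y ≤ B ^ 2 * M) : tr (xᴴ * y) ≤ A * B * M := by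
  have hs := Real.sqrt_nonneg M
  have h := tr_le_of_nsq (x := x) (y := y) (A := A * Real.sqrt M) (B := B * Real.sqrt M)
    (by positivity) (by positivity) (by rw [mul_pow, Real.sq_sqrt hM]; exact hx)
    (by rw [mul_pow, Real.sq_sqrt hM]; exact hy)
  have e : A * Real.sqrt M * (B * Real.sqrt M) = A * B * M := by
    have := Real.mul_self_sqrt hM
    calc A * Real.sqrt M * (B * Real.sqrt M) = A * B * (Real.sqrt M * Real.sqrt M) := by ring
      _ = A * B * M := by rw [this]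
  rwa [e] at h

theorem sub_U_le {a b : Mat n} (ha : IsU a) (hb : IsU b) :
    (a - b)ᴴ * (a - b) ≤ (4 : ℝ) • (1 : Mat n) := by
  have h := star_mul_nonneg (a + b)
  have e : (4 : ℝ) • (1 : Mat n) - (a - b)ᴴ * (a - b) = (a + b)ᴴ * (a + b) := by
    have e4 : (4 : ℝ) • (1 : Mat n) = 1 + 1 + 1 + 1 := by
      rw [show (4 : ℝ) = 1 + 1 + 1 + 1 by norm_num, add_smul, add_smul, add_smul, one_smul]
    have e1 : (a + b)ᴴ * (a + b) + (a - b)ᴴ * (a - b) =
        aᴴ * a + aᴴ * a + bᴴ * b + bᴴ * b := by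
      rw [conjTranspose_add, conjTranspose_sub]
      noncomm_ring
    rw [ha.1, hb.1] at e1
    rw [e4, ← e1]
    abel
  rw [← sub_nonneg, e]
  exact h

theorem nsq_defects {G : Type} [Group G] (u : G → Mat n) (hu : ∀ g, IsU (u g)) (W : Finset G)
    {D : ℝ} (hD : 0 ≤ D) (hW : ∀ g ∈ W, ∀ h ∈ W, nsq (df u g h) ≤ D) :
    nsq (∑ p ∈ W ×ˢ W, (df u p.1 p.2)ᴴ * df u p.1 p.2) ≤ 4 * (W.card : ℝ) ^ 4 * D := by
  have h1 := nsq_sum_le (W ×ˢ W) (fun p => (df u p.1 p.2)ᴴ * df u p.1 p.2)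
  have h2 : ∀ p ∈ W ×ˢ W, nsq ((df u p.1 p.2)ᴴ * df u p.1 p.2) ≤ 4 * D := by
    intro p hp
    have a1 : (df u p.1 p.2)ᴴ * df u p.1 p.2 ≤ (4 : ℝ) • (1 : Mat n) :=
      sub_U_le ((hu _).mul (hu _)) (hu _)
    have a2 := nsq_le_tr (star_mul_nonneg _) a1
    have a3 := hW p.1 (mem_product.mp hp).1 p.2 (mem_product.mp hp).2
    rw [← nsq_eq] at a2
    linarith
  have h3 := sum_le_card_nsmul _ _ _ h2
  rw [nsmul_eq_mul] at h3
  rw [card_product] at h1 h3
  push_cast at h1 h3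
  have h4 := mul_le_mul_of_nonneg_left h3 (by positivity : (0 : ℝ) ≤ W.card * W.card)
  calc _ ≤ _ := h1
    _ ≤ _ := h4
    _ = _ := by ring

theorem p1 (hRS : S_RS) (hIMP : S_IMP) (hTILT : S_TILT) : S_P1 := by
  classical
  intro G _ S hK
  obtain ⟨γ, hγ, hI⟩ := hIMP G S hK (1 / 10 ^ 15) (1 / 10 ^ 23) (by norm_num) (by norm_num)
    (by norm_num)
  obtain ⟨γ₁, hγ₁, hT⟩ := hTILT G S γ hγ
  refine ⟨γ₁ / 4000, 5 * 10 ^ 8, by positivity, by norm_num, fun η hη => ?_⟩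
  obtain ⟨η', hη', hη'1, hη'2⟩ : ∃ η' : ℝ, 0 < η' ∧ η' ≤ η / 2 ∧ η' ≤ γ₁ / 10 ^ 23 :=
    ⟨min (η / 2) (γ₁ / 10 ^ 23), lt_min (by positivity) (by positivity), min_le_left _ _,
      min_le_right _ _⟩
  obtain ⟨I, _, _, gi, W, δ', hδ', hI2⟩ := hI η' hη'
  refine ⟨W, δ' ^ 2 / (10 ^ 63 * ((W.card : ℝ) ^ 4 + 1)), by positivity, ?_⟩
  intro n _ _ _ u hu hu1 hW b ρ hb hρ hbn
  have hd : (0 : ℝ) < Fintype.card n := by exact_mod_cast Fintype.card_pos
  obtain ⟨N, q, hq, hM⟩ := greedy u S (γ := γ) (σ := 1 / 10 ^ 15) hγ.le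
  have hqp : ∀ j < N, IsProj (q j) := fun j hj => (hq j hj).1.1
  set M := tr (∑ i ∈ range N, q i) with hMdef
  have hMs : M = ∑ j ∈ range N, tr (q j) := tr_sum _ _
  have hM0 : 0 < M := lt_trans (by positivity) hM
  have hdM : (Fintype.card n : ℝ) ≤ 10 ^ 15 * M := by linarith
  have hQ0 : 0 ≤ ∑ i ∈ range N, q i := sum_nonneg fun i hi => (hqp i (mem_range.mp hi)).nonneg
  have hQ : nsq (∑ i ∈ range N, q i) ≤ (1 + 2 / 10 ^ 15) * M := by
    rw [nsq_sum_proj q N hqp]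
    have a1 : ∑ j ∈ range N, tr (q j * ∑ i ∈ range j, q i) ≤
        ∑ j ∈ range N, 1 / 10 ^ 15 * tr (q j) :=
      sum_le_sum fun j hj => (hq j (mem_range.mp hj)).1.2.2.2
    rw [← Finset.mul_sum, ← hMs] at a1
    linarith
  -- the defects
  set b0 := ∑ p ∈ W ×ˢ W, (df u p.1 p.2)ᴴ * df u p.1 p.2 with hb0
  have hb00 : 0 ≤ b0 := sum_nonneg fun p _ => star_mul_nonneg _
  have hb0n : nsq b0 ≤ (δ' / (2 * 10 ^ 23)) ^ 2 * M := by
    have a1 := nsq_defects u hu W (by positivity) hW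
    have a2 : 4 * (W.card : ℝ) ^ 4 *
        (δ' ^ 2 / (10 ^ 63 * ((W.card : ℝ) ^ 4 + 1)) * Fintype.card n) =
        ((W.card : ℝ) ^ 4 / ((W.card : ℝ) ^ 4 + 1)) * (4 * δ' ^ 2 / 10 ^ 63 * Fintype.card n) := by
      field_simp
    have a3 : ((W.card : ℝ) ^ 4 / ((W.card : ℝ) ^ 4 + 1)) ≤ 1 := by
      rw [div_le_one (by positivity)]
      linarith
    have a4 := mul_le_mul_of_nonneg_right a3
      (by positivity : 0 ≤ 4 * δ' ^ 2 / 10 ^ 63 * (Fintype.card n : ℝ))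
    have a5 := mul_le_mul_of_nonneg_left hdM (by positivity : 0 ≤ 4 * δ' ^ 2 / 10 ^ 63)
    have a6 : 0 ≤ δ' ^ 2 * M := by positivity
    rw [a2] at a1
    nlinarith
  have hb0Q : tr (b0 * ∑ i ∈ range N, q i) ≤ δ' / 10 ^ 23 * M := by
    have a1 := tr_le_of_nsq' (x := b0) (y := ∑ i ∈ range N, q i) (A := δ' / (2 * 10 ^ 23)) (B := 2)
      (by positivity) (by norm_num) hM0.le hb0n (by linarith)
    rw [herm hb00] at a1
    linarith
  let B : ℕ → ℝ := fun j => if tr (b0 * q j) ≤ δ' * tr (q j) then 0 else tr (q j)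
  have hB0 : ∀ j < N, 0 ≤ B j := by
    intro j hj
    simp only [B]
    split_ifs
    · exact le_rfl
    · exact (hqp j hj).tr_nonneg
  have hB : ∑ j ∈ range N, B j ≤ 1 / 10 ^ 23 * M := by
    have a1 : ∀ j ∈ range N, δ' * B j ≤ tr (b0 * q j) := by
      intro j hj
      simp only [B]
      split_ifs with h
      · rw [mul_zero]
        exact tr_mul_nonneg hb00 (hqp j (mem_range.mp hj)).nonneg
      · exact (not_le.mp h).le
    have a2 := sum_le_sum a1
    rw [← Finset.mul_sum, ← tr_sum, ← Finset.mul_sum] at a2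
    have a3 : δ' * ∑ j ∈ range N, B j ≤ δ' * (1 / 10 ^ 23 * M) := by linarith
    exact le_of_mul_le_mul_left a3 hδ'
  -- the improved projections
  have hex : ∀ j, ∃ U : Mat n, IsProj U ∧ (j < N →
      (1 - 2 * (1 / 10 ^ 15) : ℝ) • U ≤ av u gi (q j) ∧ en u S U ≤ η' * tr (q j) ∧
      nsq (U - q j) ≤ 1 / 10 ^ 23 * tr (q j) + B j) := by
    intro j
    by_cases hj : j < N
    · by_cases hg : tr (b0 * q j) ≤ δ' * tr (q j)
      · have a1 : ∀ g ∈ W, ∀ h ∈ W, nsq (df u g h * q j) ≤ δ' * tr (q j) := by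
          intro g hg' h hh
          rw [(hqp j hj).nsq_mul]
          refine le_trans (tr_mul_le' (hqp j hj).nonneg ?_) hg
          exact single_le_sum (f := fun p : G × G => (df u p.1 p.2)ᴴ * df u p.1 p.2)
            (fun p _ => star_mul_nonneg _) (a := (g, h)) (mem_product.mpr ⟨hg', hh⟩)
        obtain ⟨U, h1, h2, h3, h4⟩ := hI2 n u hu hu1 (q j) (hqp j hj) a1 (hq j hj).1.2.2.1
        exact ⟨U, h1, fun _ => ⟨h2, h3, by have := hB0 j hj; linarith⟩⟩
      · refine ⟨0, isProj_zero, fun _ => ⟨?_, ?_, ?_⟩⟩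
        · rw [smul_zero]
          exact av_nonneg u gi (hqp j hj).nonneg
        · have : en u S (0 : Mat n) = 0 := by simp [en, cm, nsq_zero]
          rw [this]
          exact mul_nonneg hη'.le (hqp j hj).tr_nonneg
        · have e : B j = tr (q j) := by simp only [B]; rw [if_neg hg]
          rw [zero_sub, nsq_neg, (hqp j hj).nsq_eq, e]
          have := (hqp j hj).tr_nonneg
          linarith
    · exact ⟨0, isProj_zero, fun h => absurd h hj⟩
  choose Us hUs hUq using hex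
  have hdist : ∑ j ∈ range N, nsq (Us j - q j) ≤ 2 / 10 ^ 23 * M := by
    have a1 : ∑ j ∈ range N, nsq (Us j - q j) ≤ ∑ j ∈ range N, (1 / 10 ^ 23 * tr (q j) + B j) :=
      sum_le_sum fun j hj => (hUq j (mem_range.mp hj)).2.2
    rw [sum_add_distrib, ← Finset.mul_sum, ← hMs] at a1
    linarith
  have hP0 : 0 ≤ ∑ i ∈ range N, Us i := sum_nonneg fun i _ => (hUs i).nonneg
  have hP : nsq (∑ i ∈ range N, Us i) ≤ (1 + 7 / 10 ^ 15) * M := by
    have a1 : (1 - 2 * (1 / 10 ^ 15) : ℝ) • ∑ i ∈ range N, Us i ≤ av u gi (∑ i ∈ range N, q i) := by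
      rw [av_sum, Finset.smul_sum]
      exact sum_le_sum fun j hj => (hUq j (mem_range.mp hj)).1
    have a2 := nsq_mono (rsmul_nonneg (by norm_num) hP0) a1
    rw [nsq_smul] at a2
    have a3 := nsq_av_le u hu gi (∑ i ∈ range N, q i)
    linarith
  have hPt : (1 - 2 / 10 ^ 23) * M ≤ tr (∑ i ∈ range N, Us i) := by
    have a1 : ∑ j ∈ range N, tr (q j) ≤ ∑ j ∈ range N, (tr (Us j) + nsq (Us j - q j)) :=
      sum_le_sum fun j hj => tr_proj_le (hUs j) (hqp j (mem_range.mp hj))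
    rw [sum_add_distrib, ← hMs, ← tr_sum] at a1
    linarith
  obtain ⟨R, hR, hRN⟩ := hRS n Us hUs (10 ^ 8) (by norm_num)
  obtain ⟨hRb, hRc, hRd⟩ := hRN N
  set Nn := ∑ i ∈ range N, (q i - Us i)ᴴ * (q i - Us i) with hNn
  have hNn0 : 0 ≤ Nn := sum_nonneg fun i _ => star_mul_nonneg _
  have hX2 : ∑ j ∈ range N, tr (Us j * ∑ i ∈ range j, Us i) ≤ 4 / 10 ^ 15 * M := by
    have a1 := nsq_sum_proj Us N fun j _ => hUs j
    linarith
  have hX3 : ∑ j ∈ range N, tr (Us j * (R j * (∑ i ∈ range j, Us i) * R j)) ≤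
      8 / 10 ^ 23 * M := by
    refine hRc.trans ?_
    rw [div_le_iff₀ (by norm_num)]
    linarith
  have hX4 : ∑ j ∈ range N, (∑ s ∈ S, nsq (cm (u s) (R j) * Us j)) / γ₁ ≤ 2 / 10 ^ 5 * M := by
    rw [← Finset.sum_div, div_le_iff₀ hγ₁, sum_comm]
    have a1 : ∑ s ∈ S, ∑ j ∈ range N, nsq (cm (u s) (R j) * Us j) ≤
        ∑ s ∈ S, 200 * (10 ^ 8) ^ 2 * ∑ j ∈ range N, nsq (cm (u s) (Us j)) :=
      sum_le_sum fun s _ => hRd (u s) (hu s)
    rw [← Finset.mul_sum, sum_comm] at a1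
    have a2 : ∑ j ∈ range N, ∑ s ∈ S, nsq (cm (u s) (Us j)) ≤ ∑ j ∈ range N, η' * tr (q j) :=
      sum_le_sum fun j hj => (hUq j (mem_range.mp hj)).2.1
    rw [← Finset.mul_sum, ← hMs] at a2
    have a3 := mul_le_mul_of_nonneg_right hη'2 hM0.le
    rw [sum_comm] at a1
    rw [sum_comm (s := range N)] at a2
    linarith
  have hX5 : ∑ j ∈ range N, tr (R j * Us j * R j * Nn) ≤ 4 / 10 ^ 23 * M := by
    rw [← tr_sum, ← Finset.sum_mul]
    have a1 := tr_mul_le' hNn0 hRb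
    rw [Matrix.smul_mul, Matrix.one_mul, tr_smul] at a1
    have a2 : tr Nn = ∑ j ∈ range N, nsq (Us j - q j) := by
      rw [hNn, tr_sum]
      exact sum_congr rfl fun j _ => by rw [← nsq_eq, nsq_sub_comm]
    linarith
  have hX6 : ∑ j ∈ range N, tr (b * Us j) / ρ ≤ 6 * 10 ^ 7 * M := by
    rw [← Finset.sum_div, div_le_iff₀ hρ, ← tr_sum, ← Finset.mul_sum]
    have a0 := mul_le_mul_of_nonneg_left hdM (sq_nonneg ρ)
    have a00 : 0 ≤ ρ ^ 2 * M := by positivity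
    have a1 := tr_le_of_nsq' (x := b) (y := ∑ i ∈ range N, Us i) (A := 4 * 10 ^ 7 * ρ)
      (B := 3 / 2) (by positivity) (by norm_num) hM0.le (by nlinarith) (by linarith)
    rw [herm hb] at a1
    linarith
  obtain ⟨j, hjN, hj⟩ : ∃ j ∈ range N,
      B j + 2 * 10 ^ 13 * tr (Us j * ∑ i ∈ range j, Us i) +
        10 ^ 21 * tr (Us j * (R j * (∑ i ∈ range j, Us i) * R j)) +
        5000 * ((∑ s ∈ S, nsq (cm (u s) (R j) * Us j)) / γ₁) +
        10 ^ 21 * tr (R j * Us j * R j * Nn) + 1 / (3 * 10 ^ 8) * (tr (b * Us j) / ρ) <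
        tr (q j) := by
    apply exists_lt_of_sum_lt
    simp only [sum_add_distrib, ← Finset.mul_sum]
    rw [← hMs]
    linarith
  have hj' := mem_range.mp hjN
  have hPj : 0 ≤ ∑ i ∈ range j, Us i := sum_nonneg fun i _ => (hUs i).nonneg
  have hRh : (R j)ᴴ = R j := herm (hR j).1
  have y1 := hB0 j hj'
  have y2 : 0 ≤ tr (Us j * ∑ i ∈ range j, Us i) := tr_mul_nonneg (hUs j).nonneg hPj
  have y3 : 0 ≤ tr (Us j * (R j * (∑ i ∈ range j, Us i) * R j)) := by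
    refine tr_mul_nonneg (hUs j).nonneg ?_
    have := conj_nonneg hPj (R j)
    rwa [hRh] at this
  have y4 : 0 ≤ (∑ s ∈ S, nsq (cm (u s) (R j) * Us j)) / γ₁ :=
    div_nonneg (sum_nonneg fun _ _ => nsq_nonneg _) hγ₁.le
  have y5 : 0 ≤ tr (R j * Us j * R j * Nn) := by
    refine tr_mul_nonneg ?_ hNn0
    have := conj_nonneg (hUs j).nonneg (R j)
    rwa [hRh] at this
  have y6 : 0 ≤ tr (b * Us j) / ρ := div_nonneg (tr_mul_nonneg hb (hUs j).nonneg) hρ.le
  have hT0 : 0 < tr (q j) := (hq j hj').1.2.1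
  have hBj : B j = 0 := by
    by_contra hne
    have e : B j = tr (q j) := by
      simp only [B] at hne ⊢
      split_ifs with h
      · rw [if_pos h] at hne
        exact absurd rfl hne
      · rfl
    linarith
  obtain ⟨z1, z2, z3⟩ := hUq j hj'
  have t1 := tr_proj_le (hUs j) (hqp j hj')
  have t2 := tr_proj_le (hqp j hj') (hUs j)
  rw [nsq_sub_comm] at t2
  have hTU : 99 / 100 * tr (q j) ≤ tr (Us j) := by linarith
  have hUT : tr (Us j) ≤ 101 / 100 * tr (q j) := by linarith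
  refine ⟨Us j, hUs j, by linarith, ?_, ?_, ?_⟩
  · have a1 := mul_le_mul_of_nonneg_right hη'1 hT0.le
    have a2 := mul_le_mul_of_nonneg_left hTU hη.le
    have a3 : 0 < η * tr (q j) := mul_pos hη hT0
    linarith
  · have a1 : tr (b * Us j) / ρ ≤ 5 * 10 ^ 8 * tr (Us j) := by linarith
    rw [div_le_iff₀ hρ] at a1
    linarith
  · refine tilt_step u hu S (γ := γ) (σ := 1 / 10 ^ 15) (Λ := 10 ^ 8) (T := tr (q j)) hγ₁
      (by norm_num) (hT n u hu) j q Us (fun i hi => hqp i (hi.trans hj')) hUs (R j) (Us j) Nn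
      (hUs j) (hR j).1 (hR j).2.1 (by norm_num) (hR j).2.2 ?_ hT0 hTU hUT (by linarith)
      (by linarith) ?_ (by linarith) (hq j hj').2
    · exact sum_le_sum_of_subset_of_nonneg (range_subset_range.mpr hj'.le)
        fun i _ _ => star_mul_nonneg _
    · have a1 : (∑ s ∈ S, nsq (cm (u s) (R j) * Us j)) / γ₁ ≤ tr (q j) / 5000 := by linarith
      rw [div_le_iff₀ hγ₁] at a1
      linarith

end Pool.Agent.H304Z.NH
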