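import Pool.Agent.H304Z.NH.Spec3
import Pool.Agent.H304Z.NH.Defs

set_option autoImplicit false
set_option linter.unusedSectionVars false
set_option linter.unusedVariables false

/-!
Statements of the assembly steps.
-/

namespace Pool.Agent.H304Z.NH

/-- the general theorem -/
def S_FIN : Prop :=
  ∀ (G : Type) [Group G] (S : Finset G) (θ : G →* G) (t c : G),
    Kaz G S → Subgroup.closure (S : Set G) = ⊤ →
    Subgroup.closure {r : G | ∀ g, ∃ g', r * θ g * r⁻¹ = θ g'} = ⊤ →
    (∀ g, ∃ g', t * θ g * t⁻¹ = θ g') →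
    (∀ g, c * (t * θ g * t⁻¹) = (t * θ g * t⁻¹) * c) →
    (Set.range fun g => θ g * c * (θ g)⁻¹).Infinite → ¬ IsHyp G

/-- translation to the definitions of the problem file -/
def S_SOF : Prop :=
  ∀ (G : Type) [Group G], (NHDefs.Hyperlinear G → IsHyp G) ∧ (NHDefs.Sofic G → NHDefs.Hyperlinear G)

end Pool.Agent.H304Z.NH
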