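import Mathlib

set_option autoImplicit false
set_option linter.unusedSectionVars false
set_option linter.unusedVariables false

/-!
Definitions and the statements of the pieces of the proof that a certain Kazhdan group is not
hyperlinear.  All traces and Hilbert-Schmidt norms are unnormalised.
-/

namespace Pool.Agent.H304Z.NH

open Matrix Finset
open scoped MatrixOrder ComplexOrder

/-- square complex matrices -/
abbrev Mat (n : Type) : Type := Matrix n n ℂ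

section defs

variable {n : Type} [Fintype n] [DecidableEq n]

/-- real part of the trace -/
noncomputable def tr (x : Mat n) : ℝ := (trace x).re

/-- squared Hilbert-Schmidt norm -/
noncomputable def nsq (x : Mat n) : ℝ := tr (xᴴ * x)

/-- orthogonal projections -/
def IsProj (p : Mat n) : Prop := pᴴ = p ∧ p * p = p

/-- unitary matrices -/
def IsU (u : Mat n) : Prop := uᴴ * u = 1 ∧ u * uᴴ = 1

/-- commutator -/
def cm (u x : Mat n) : Mat n := u * x - x * u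

/-- multiplicativity defect -/
def df {G : Type} [Group G] (u : G → Mat n) (g h : G) : Mat n := u g * u h - u (g * h)

/-- the average of the conjugates of `y` by the matrices `u (γ i)` -/
noncomputable def av {G I : Type} [Fintype I] (u : G → Mat n) (γ : I → G) (y : Mat n) : Mat n :=
  ((Fintype.card I : ℝ)⁻¹) • ∑ i, u (γ i) * y * (u (γ i))ᴴ

/-- energy of one matrix -/
noncomputable def en {G : Type} (u : G → Mat n) (S : Finset G) (y : Mat n) : ℝ :=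
  ∑ s ∈ S, nsq (cm (u s) y)

end defs

/-- `S` is a Kazhdan set -/
def Kaz (G : Type) [Group G] (S : Finset G) : Prop :=
  ∃ ε : ℝ, 0 < ε ∧
    ∀ (E : Type) [NormedAddCommGroup E] [InnerProductSpace ℂ E] [CompleteSpace E]
      (π : G →* (E →L[ℂ] E)),
      (∀ g : G, π g ∈ unitary (E →L[ℂ] E)) →
      (∃ v : E, ‖v‖ = 1 ∧ ∀ s ∈ S, ‖(π s) v - v‖ < ε) →
      ∃ w : E, w ≠ 0 ∧ ∀ g : G, (π g) w = w

/-- hyperlinearity as in the problem file -/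
def IsHyp (G : Type) [Group G] : Prop :=
  ∀ A : Finset G, (1 : G) ∈ A → ∀ ε : ℝ, 0 < ε →
    ∃ n : ℕ, 1 ≤ n ∧ ∃ φ : G → Matrix.unitaryGroup (Fin n) ℂ,
      φ 1 = 1 ∧
      (∀ a ∈ A, ∀ b ∈ A, a * b ∈ A →
        Real.sqrt (nsq ((φ (a * b)).1 - (φ a).1 * (φ b).1) / n) < ε) ∧
      ∀ a ∈ A, a ≠ 1 → 1 ≤ Real.sqrt (nsq ((φ a).1 - 1) / n)

/-- spectral cut with small commutators -/
def S_TH : Prop :=
  ∀ (n : Type) [Fintype n] [DecidableEq n] (κ : Type) [Fintype κ] (u : κ → Mat n),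
    (∀ k, IsU (u k)) → ∀ x : Mat n, 0 ≤ x → ∀ θ₀ θ₁ : ℝ, 0 < θ₀ → θ₀ < θ₁ → ∀ N : ℕ, 0 < N →
    ∃ p : Mat n, IsProj p ∧ p * x = x * p ∧ θ₀ • p ≤ x ∧
      (1 - p) * x * (1 - p) ≤ θ₁ • (1 - p) ∧
      ∑ k, nsq (cm (u k) p) ≤ (2 * N / (θ₁ - θ₀)) ^ 2 * ∑ k, nsq (cm (u k) x) +
        Fintype.card κ * tr x / (θ₀ * N)

/-- spectral gap for approximate representations -/
def S_GM : Prop :=
  ∀ (G : Type) [Group G] (S : Finset G), Kaz G S →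
    ∃ K : ℝ, 0 ≤ K ∧ ∀ η : ℝ, 0 < η →
      ∃ (I : Type) (_ : Fintype I) (_ : Nonempty I) (γ : I → G) (W : Finset G) (δ : ℝ), 0 < δ ∧
        ∀ (n : Type) [Fintype n] [DecidableEq n] (u : G → Mat n), (∀ g, IsU (u g)) → u 1 = 1 →
        ∀ (ι : Type) [Fintype ι] (y : ι → Mat n) (c : ℝ), 0 < c → ∑ a, nsq (y a) ≤ c →
          (∀ g ∈ W, ∀ h ∈ W, ∑ a, nsq (df u g h * y a) ≤ δ * c ∧
            ∑ a, nsq (y a * (df u g h)ᴴ) ≤ δ * c) →
          ∑ a, en u S (av u γ (y a)) ≤ η * c ∧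
          ∑ a, nsq (y a - av u γ (y a)) ≤ K * ∑ a, en u S (y a) + η * c

/-- commutators with words -/
def S_CL : Prop :=
  ∀ (G : Type) [Group G] (T : Finset G) (g : G), g ∈ Subgroup.closure (T : Set G) →
    ∃ (W : Finset G) (C : ℝ), 0 ≤ C ∧
      ∀ (n : Type) [Fintype n] [DecidableEq n] (u : G → Mat n), (∀ g, IsU (u g)) → u 1 = 1 →
      ∀ (ι : Type) [Fintype ι] (y : ι → Mat n) (ω : ℝ), 0 ≤ ω →
        (∀ a ∈ W, ∀ b ∈ W, ∑ i, nsq (df u a b * y i) ≤ ω ∧ ∑ i, nsq (y i * df u a b) ≤ ω) →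
        ∑ i, nsq (cm (u g) (y i)) ≤ C * (∑ i, en u T (y i) + ω)

/-- amplification -/
def S_AM : Prop :=
  ∀ (G : Type) [Group G], IsHyp G → ∀ (W : Finset G) (δ ε : ℝ), 0 < δ → 0 < ε →
    ∃ (n : Type) (_ : Fintype n) (_ : DecidableEq n) (_ : Nonempty n) (u : G → Mat n),
      (∀ g, IsU (u g)) ∧ u 1 = 1 ∧
      ∀ g ∈ W, ∀ h ∈ W, nsq (df u g h) ≤ δ * Fintype.card n ∧
        (g ≠ h → tr ((u g)ᴴ * u h) ≤ ε * Fintype.card n)

/-- the group -/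
def S_GR : Prop :=
  ∃ (G : Type) (_ : Group G) (S : Finset G) (θ : G →* G) (t c : G),
    Kaz G S ∧ Subgroup.closure (S : Set G) = ⊤ ∧
    Subgroup.closure {r : G | ∀ g, ∃ g', r * θ g * r⁻¹ = θ g'} = ⊤ ∧
    (∀ g, ∃ g', t * θ g * t⁻¹ = θ g') ∧
    (∀ g, c * (t * θ g * t⁻¹) = (t * θ g * t⁻¹) * c) ∧
    (Set.range fun g => θ g * c * (θ g)⁻¹).Infinite

/-- resolvents of partial sums of projections -/
def S_RS : Prop :=
  ∀ (n : Type) [Fintype n] [DecidableEq n] (U : ℕ → Mat n), (∀ j, IsProj (U j)) →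
    ∀ Λ : ℝ, 1 ≤ Λ → ∃ R : ℕ → Mat n,
      (∀ j, 0 ≤ R j ∧ R j ≤ 1 ∧ 1 - R j * R j ≤ (2 * Λ) • ∑ i ∈ range j, U i) ∧
      ∀ N : ℕ,
        ∑ j ∈ range N, R j * U j * R j ≤ (2 : ℝ) • (1 : Mat n) ∧
        ∑ j ∈ range N, tr (U j * (R j * (∑ i ∈ range j, U i) * R j)) ≤
          (nsq (∑ i ∈ range N, U i) - tr (∑ i ∈ range N, U i)) / Λ ∧
        ∀ u : Mat n, IsU u → ∑ j ∈ range N, nsq (cm u (R j) * U j) ≤
          200 * Λ ^ 2 * ∑ j ∈ range N, nsq (cm u (U j))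

/-- improvement of one projection -/
def S_IMP : Prop :=
  ∀ (G : Type) [Group G] (S : Finset G), Kaz G S →
    ∀ σ ν : ℝ, 0 < σ → σ ≤ 1 / 100 → 0 < ν → ∃ γ₀ : ℝ, 0 < γ₀ ∧ ∀ η : ℝ, 0 < η →
      ∃ (I : Type) (_ : Fintype I) (_ : Nonempty I) (γ : I → G) (W : Finset G) (δ : ℝ), 0 < δ ∧
        ∀ (n : Type) [Fintype n] [DecidableEq n] (u : G → Mat n), (∀ g, IsU (u g)) → u 1 = 1 →
        ∀ q : Mat n, IsProj q → (∀ g ∈ W, ∀ h ∈ W, nsq (df u g h * q) ≤ δ * tr q) →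
          en u S q ≤ γ₀ * tr q →
          ∃ U : Mat n, IsProj U ∧ (1 - 2 * σ) • U ≤ av u γ q ∧ en u S U ≤ η * tr q ∧
            nsq (U - q) ≤ ν * tr q

/-- a projection from an almost intertwiner -/
def S_TILT : Prop :=
  ∀ (G : Type) (S : Finset G) (γ : ℝ), 0 < γ → ∃ γ₁ : ℝ, 0 < γ₁ ∧
    ∀ (n : Type) [Fintype n] [DecidableEq n] (u : G → Mat n), (∀ g, IsU (u g)) →
    ∀ V z : Mat n, IsProj V → z * V = z → z * zᴴ ≤ 1 → 49 / 50 * tr V ≤ nsq z →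
      en u S z ≤ γ₁ * tr V →
      ∃ q : Mat n, IsProj q ∧ (4 / 5 : ℝ) • q ≤ z * zᴴ ∧ tr V / 20 ≤ tr q ∧ en u S q ≤ γ * tr q

/-- irreducibility of the corner `U` -/
def Irr {n : Type} [Fintype n] [DecidableEq n] {G : Type} (u : G → Mat n) (S : Finset G)
    (γ : ℝ) (U : Mat n) : Prop :=
  ∀ V : Mat n, IsProj V → V * U = V → tr V ≤ tr U / 2 → en u S V ≤ γ * tr U →
    tr V ≤ tr U / 1000

/-- Part one: an irreducible corner -/
def S_P1 : Prop :=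
  ∀ (G : Type) [Group G] (S : Finset G), Kaz G S →
    ∃ γ C : ℝ, 0 < γ ∧ 0 < C ∧ ∀ η : ℝ, 0 < η → ∃ (W : Finset G) (δ : ℝ), 0 < δ ∧
      ∀ (n : Type) [Fintype n] [DecidableEq n] [Nonempty n] (u : G → Mat n),
        (∀ g, IsU (u g)) → u 1 = 1 →
        (∀ g ∈ W, ∀ h ∈ W, nsq (df u g h) ≤ δ * Fintype.card n) →
        ∀ (b : Mat n) (ρ : ℝ), 0 ≤ b → 0 < ρ → nsq b ≤ ρ ^ 2 * Fintype.card n →
        ∃ U : Mat n, IsProj U ∧ 0 < tr U ∧ en u S U ≤ η * tr U ∧ tr (b * U) ≤ C * ρ * tr U ∧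
          Irr u S γ U

/-- Part two: no irreducible corner exists -/
def S_P2 : Prop :=
  ∀ (G : Type) [Group G] (S : Finset G) (θ : G →* G) (t c : G),
    Kaz G S → Subgroup.closure (S : Set G) = ⊤ →
    Subgroup.closure {r : G | ∀ g, ∃ g', r * θ g * r⁻¹ = θ g'} = ⊤ →
    (∀ g, ∃ g', t * θ g * t⁻¹ = θ g') →
    (∀ g, c * (t * θ g * t⁻¹) = (t * θ g * t⁻¹) * c) →
    ∀ γ : ℝ, 0 < γ → ∃ ε : ℝ, 0 < ε ∧ ∀ (J : Type) [Fintype J] [Nonempty J] (l : J → G),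
      ∃ (W : Finset G) (ω : ℝ), 0 < ω ∧
      ∀ (n : Type) [Fintype n] [DecidableEq n] (u : G → Mat n), (∀ g, IsU (u g)) → u 1 = 1 →
      ∀ U : Mat n, IsProj U → 0 < tr U →
        (∀ g ∈ W, ∀ h ∈ W, nsq (df u g h * U) ≤ ω * tr U ∧ nsq (U * df u g h) ≤ ω * tr U) →
        (∀ g ∈ W, nsq (cm (u g) U) ≤ ω * tr U) →
        nsq (U * ((Fintype.card J : ℝ)⁻¹ • ∑ j, u (θ (l j) * c * (θ (l j))⁻¹))) ≤ ε * tr U →
        Irr u S γ U → False

end Pool.Agent.H304Z.NH
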