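import Pool.Agent.H304Z.NH.P1b
import Pool.Agent.H304Z.NH.Spec4
import Pool.Agent.H411Z.NH.CLAM
import Pool.Agent.H726Z.NH.TH
import Pool.Agent.H374Z.RS.Main
import Pool.Agent.H515Z.GMMat
import Pool.Agent.H602Z.NHImp
import Pool.Agent.H602Z.NHTilt
import Pool.Agent.H291Z.NHLI
import Pool.Agent.H144Z.NH.CD
import Pool.Agent.H101Z.NH.LX
import Pool.Agent.H849Z.NH.EE
import Pool.Agent.H873Z.NHLS
import Pool.Agent.H566Z.NHLC
import Pool.Agent.H566Z.NHSof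
import Pool.Agent.H776Z.NHP2
import Pool.Agent.H849Z.NH.Fin

set_option autoImplicit false

/-!
The pieces put together.
-/

namespace Pool.Agent.H304Z.NH

theorem t_th : S_TH := Pool.Agent.H726Z.NH.th
theorem t_gm : S_GM := Pool.Agent.H515Z.GM.gm
theorem t_cl : S_CL := Pool.Agent.H411Z.NH.cl
theorem t_am : S_AM := Pool.Agent.H411Z.NH.am
theorem t_rs : S_RS := Pool.Agent.H374Z.RS.rs
theorem t_imp : S_IMP := Pool.Agent.H602Z.NH.imp t_th t_gm
theorem t_tilt : S_TILT := Pool.Agent.H602Z.NH.tilt t_th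
theorem t_p1 : S_P1 := p1 t_rs t_imp t_tilt
theorem t_li : S_LI := Pool.Agent.H291Z.NHLI.li t_gm
theorem t_lc : S_LC := Pool.Agent.H566Z.NHLC.lc t_cl
theorem t_lx : S_LX := Pool.Agent.H101Z.NH.lx t_cl
theorem t_lo : S_LO := Pool.Agent.H101Z.NH.lo
theorem t_ls : S_LS := Pool.Agent.H873Z.NHLS.ls
theorem t_cd : S_CD := Pool.Agent.H144Z.NH.cd t_th t_cl t_lc
theorem t_ee : S_E := Pool.Agent.H849Z.NH.ee t_lc t_lx t_lo
theorem t_p2 : S_P2 := Pool.Agent.H776Z.NHP2.p2 t_li t_ls t_cd t_ee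
theorem t_fin : S_FIN := Pool.Agent.H849Z.NH.fin t_am t_cl t_p1 t_p2
theorem t_sof : S_SOF := Pool.Agent.H566Z.NHSof.sof

end Pool.Agent.H304Z.NH
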