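import Pool.Agent.H304Z.NH.Basic

set_option autoImplicit false
set_option linter.unusedSectionVars false
set_option linter.unusedVariables false

/-!
Statements of the pieces of part two.
-/

namespace Pool.Agent.H304Z.NH

open Matrix Finset
open scoped MatrixOrder ComplexOrder

section defs

variable {n : Type} [Fintype n] [DecidableEq n] {ι : Type} [Fintype ι]

/-- Bessel families with bound one -/
def Bes (y : ι → Mat n) : Prop := ∀ x : Mat n, ∑ a, ‖trace ((y a)ᴴ * x)‖ ^ 2 ≤ nsq x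

/-- left marginal -/
noncomputable def LL (y : ι → Mat n) : Mat n := ∑ a, y a * (y a)ᴴ

/-- right marginal -/
noncomputable def RR (y : ι → Mat n) : Mat n := ∑ a, (y a)ᴴ * y a

/-- total mass -/
noncomputable def AA (y : ι → Mat n) : ℝ := ∑ a, nsq (y a)

/-- total energy -/
noncomputable def EE {G : Type} (u : G → Mat n) (S : Finset G) (y : ι → Mat n) : ℝ :=
  ∑ a, en u S (y a)

/-- feasible families at scale `m` -/
def Feas (U : Mat n) (m : ℝ) (y : ι → Mat n) : Prop := Bes y ∧ LL y ≤ m • U ∧ RR y ≤ m • U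

/-- small defects on the corner `U` -/
def Hyp {G : Type} [Group G] (u : G → Mat n) (U : Mat n) (W : Finset G) (ω : ℝ) : Prop :=
  (∀ g, IsU (u g)) ∧ u 1 = 1 ∧ IsProj U ∧ 0 < tr U ∧
  (∀ g ∈ W, ∀ h ∈ W, nsq (df u g h * U) ≤ ω * tr U ∧ nsq (U * df u g h) ≤ ω * tr U) ∧
  (∀ g ∈ W, nsq (cm (u g) U) ≤ ω * tr U)

end defs

/-- improvement of a feasible family -/
def S_LI : Prop :=
  ∀ (G : Type) [Group G] (S : Finset G) (θ : G →* G), Kaz G S →
    ∃ K : ℝ, 0 ≤ K ∧ ∀ η : ℝ, 0 < η → ∃ (W : Finset G) (ω : ℝ), 0 < ω ∧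
      ∀ (n : Type) [Fintype n] [DecidableEq n] (u : G → Mat n) (U : Mat n), Hyp u U W ω →
      ∀ m : ℝ, 0 < m → ∀ (ι : Type) [Fintype ι] (y : ι → Mat n), Feas U m y →
        ∃ y' : ι → Mat n, Feas U m y' ∧ nsq (LL y') ≤ nsq (LL y) ∧ nsq (RR y') ≤ nsq (RR y) ∧
          EE (fun g => u (θ g)) S y' ≤ η * (m * tr U) ∧
          ∑ a, nsq (y a - y' a) ≤ K * EE (fun g => u (θ g)) S y + η * (m * tr U)

/-- conjugation by a compressing element -/
def S_LC : Prop :=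
  ∀ (G : Type) [Group G] (S : Finset G) (θ : G →* G) (r c : G),
    Subgroup.closure (S : Set G) = ⊤ → (∀ g, ∃ g', r * θ g * r⁻¹ = θ g') →
    (∀ g, c * (r * θ g * r⁻¹) = (r * θ g * r⁻¹) * c) →
    ∃ (W : Finset G) (C : ℝ), 0 ≤ C ∧ ∀ ω : ℝ, 0 ≤ ω →
      ∀ (n : Type) [Fintype n] [DecidableEq n] (u : G → Mat n) (U : Mat n), Hyp u U W ω →
      ∀ m : ℝ, 0 < m → ∀ (ι : Type) [Fintype ι] (y : ι → Mat n), Feas U m y →
        Bes (fun a => U * ((u r)ᴴ * y a * (u c * u r)) * U) ∧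
        LL (fun a => U * ((u r)ᴴ * y a * (u c * u r)) * U) ≤ U * ((u r)ᴴ * LL y * u r) * U ∧
        RR (fun a => U * ((u r)ᴴ * y a * (u c * u r)) * U) ≤
          U * ((u c * u r)ᴴ * RR y * (u c * u r)) * U ∧
        ∑ a, nsq ((u r)ᴴ * y a * (u c * u r) - U * ((u r)ᴴ * y a * (u c * u r)) * U) ≤
          C * (ω * (m * tr U)) ∧
        EE (fun g => u (θ g)) S (fun a => U * ((u r)ᴴ * y a * (u c * u r)) * U) ≤
          C * (EE (fun g => u (θ g)) S y + ω * (m * tr U))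

/-- the cross Gram matrix -/
def S_LX : Prop :=
  ∀ (G : Type) [Group G] (S : Finset G) (θ : G →* G) (c : G),
    Subgroup.closure (S : Set G) = ⊤ → ∀ (J : Type) [Fintype J] [Nonempty J] (l : J → G),
    ∃ (W : Finset G) (C : ℝ), 0 ≤ C ∧ ∀ ω : ℝ, 0 ≤ ω →
      ∀ (n : Type) [Fintype n] [DecidableEq n] (u : G → Mat n) (U : Mat n), Hyp u U W ω →
      ∀ m : ℝ, 0 < m → ∀ (ι : Type) [Fintype ι] (y : ι → Mat n), Feas U m y →
        ∑ a, ∑ b, ‖trace ((y a)ᴴ * (y b * u c))‖ ^ 2 ≤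
          C * (EE (fun g => u (θ g)) S y + ω * (m * tr U)) +
          2 * m * nsq (U * ((Fintype.card J : ℝ)⁻¹ • ∑ j, u (θ (l j) * c * (θ (l j))⁻¹)))

/-- orthogonalisation of two Bessel families -/
def S_LO : Prop :=
  ∀ (n : Type) [Fintype n] [DecidableEq n] (ι κ : Type) [Fintype ι] [Fintype κ]
    (z : ι → Mat n) (w : κ → Mat n), Bes z → Bes w →
    ∃ w' : κ → Mat n, Bes (Sum.elim z w') ∧
      ∑ b, nsq (w b - w' b) ≤ ∑ a, ∑ b, ‖trace ((z a)ᴴ * w b)‖ ^ 2 ∧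
      LL w' ≤ (2 : ℝ) • LL w + (2 : ℝ) • LL z ∧ RR w' ≤ (2 : ℝ) • RR w + (2 : ℝ) • RR z

/-- the choice of the scale: `F` bounds the functional on all families of small energy and is
almost attained -/
def S_LS : Prop :=
  ∀ (n : Type) [Fintype n] [DecidableEq n] (G : Type) (v : G → Mat n) (S : Finset G) (U : Mat n)
    (η : ℝ), 0 < η → IsProj U → 0 < tr U → en v S U ≤ η * tr U →
    ∃ m F : ℝ, 0 < m ∧ 1 / 50 < F ∧ F ≤ 1 / 25 ∧
      (∀ (ι : Type) [Fintype ι] (y : ι → Mat n), Feas U m y → EE v S y ≤ η * (m * tr U) →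
        4 * m * AA y - nsq (LL y) - nsq (RR y) ≤ F * (2 * m ^ 2 * tr U)) ∧
      ∃ (ι : Type) (_ : Fintype ι) (y : ι → Mat n), Feas U m y ∧ EE v S y ≤ η * (m * tr U) ∧
        (F - η) * (2 * m ^ 2 * tr U) ≤ 4 * m * AA y - nsq (LL y) - nsq (RR y)

end Pool.Agent.H304Z.NH
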