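import Pool.Agent.H304Z.NH.Spec2

set_option autoImplicit false
set_option linter.unusedSectionVars false
set_option linter.unusedVariables false

/-!
Statements of the two main steps of part two.
-/

namespace Pool.Agent.H304Z.NH

open Matrix Finset
open scoped MatrixOrder ComplexOrder

/-- `F` bounds the functional on all feasible families, up to the energy -/
def Bnd {n : Type} [Fintype n] [DecidableEq n] {G : Type} (v : G → Mat n) (S : Finset G)
    (U : Mat n) (K η F m : ℝ) : Prop :=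
  ∀ (ι : Type) [Fintype ι] (y : ι → Mat n), Feas U m y → ∀ t : ℝ, 0 < t →
    4 * m * AA y - nsq (LL y) - nsq (RR y) ≤
      (F + 2 * t + 2 * (1 + 1 / t) * η) * (2 * m ^ 2 * tr U) + 4 * m * (1 + 1 / t) * K * EE v S y

/-- steps (C) and (D): an almost optimal family can be cut down to the scale `m / 10` -/
def S_CD : Prop :=
  ∀ (G : Type) [Group G] (S : Finset G) (θ : G →* G),
    Subgroup.closure (S : Set G) = ⊤ →
    Subgroup.closure {r : G | ∀ g, ∃ g', r * θ g * r⁻¹ = θ g'} = ⊤ →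
    ∀ K γ τ : ℝ, 0 ≤ K → 0 < γ → 0 < τ → ∃ (η₀ : ℝ) (W : Finset G), 0 < η₀ ∧
      ∀ η : ℝ, 0 < η → η ≤ η₀ →
      ∀ (n : Type) [Fintype n] [DecidableEq n] (u : G → Mat n) (U : Mat n), Hyp u U W η →
        Irr u S γ U → ∀ m F : ℝ, 0 < m → F ≤ 1 / 25 → Bnd (fun g => u (θ g)) S U K η F m →
        ∀ (ι : Type) [Fintype ι] (y : ι → Mat n), Feas U m y →
          EE (fun g => u (θ g)) S y ≤ η * (m * tr U) →
          (F - η) * (2 * m ^ 2 * tr U) ≤ 4 * m * AA y - nsq (LL y) - nsq (RR y) →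
          ∃ y' : ι → Mat n, Feas U (m / 10) y' ∧ AA y - m * tr U / 500 ≤ AA y' ∧
            EE (fun g => u (θ g)) S y' ≤ τ * (m * tr U)

/-- step (E): doubling -/
def S_E : Prop :=
  ∀ (G : Type) [Group G] (S : Finset G) (θ : G →* G) (t c : G),
    Subgroup.closure (S : Set G) = ⊤ →
    (∀ g, ∃ g', t * θ g * t⁻¹ = θ g') →
    (∀ g, c * (t * θ g * t⁻¹) = (t * θ g * t⁻¹) * c) →
    ∀ K : ℝ, 0 ≤ K → ∃ ε : ℝ, 0 < ε ∧ ∀ (J : Type) [Fintype J] [Nonempty J] (l : J → G),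
      ∃ (τ : ℝ) (W : Finset G), 0 < τ ∧ ∀ η : ℝ, 0 < η → η ≤ τ →
      ∀ (n : Type) [Fintype n] [DecidableEq n] (u : G → Mat n) (U : Mat n), Hyp u U W η →
        nsq (U * ((Fintype.card J : ℝ)⁻¹ • ∑ j, u (θ (l j) * c * (θ (l j))⁻¹))) ≤ ε * tr U →
        ∀ m F : ℝ, 0 < m → 1 / 50 < F → Bnd (fun g => u (θ g)) S U K η F m →
        ∀ (ι : Type) [Fintype ι] (y : ι → Mat n), Feas U (m / 10) y →
          EE (fun g => u (θ g)) S y ≤ τ * (m * tr U) →
          ((F - η) / 2 - 1 / 500) * (m * tr U) ≤ AA y → False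

end Pool.Agent.H304Z.NH
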